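import Mathlib
import Pool.Agent.N109.T3.Blk
import Pool.Agent.N109.T3.Sc
import Pool.Agent.N565.MK.ScZ

/-!
# The short distance law, piece P4: correlation functions of the scaled field

The centred correlation functions of the field are quotients of integrals of partition functions with
insertions, and these are continuous for the scaling limits `Sc`.
-/

open MeasureTheory Filter Matrix Pool.Agent.N991.MK Pool.Agent.N989.MK
open scoped Matrix.Norms.Frobenius Topology
open Pool.Agent.H906R3.YM Pool.Agent.W793.YM Pool.Agent.TH618.YM Pool.Agent.N984.TW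
open Pool.Agent.N109.T3

namespace Pool.Agent.N681.T3

set_option linter.unusedSectionVars false

noncomputable section

lemma prod_succ {n : ℕ} (c : Pq (n + 1) → ℝ) :
    ∏ q, c q = ∏ s : Fin 4, ∏ r : Fin 4, ∏ p : Pq n, c (s, r, p) := by
  change ∏ p : Fin 4 × Fin 4 × Pq n, c (p : Pq (n + 1)) = _
  rw [Fintype.prod_prod_type]
  refine Finset.prod_congr rfl fun s _ => ?_
  rw [Fintype.prod_prod_type]

lemma prod_zero' (c : Pq 0 → ℝ) : ∏ q, c q = c () := by
  change ∏ q : Unit, c q = c ()
  simp

/-! ### Multilinearity of the partition functions on the group -/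

section grp

variable {G : Type*} [Group G] [TopologicalSpace G] [IsTopologicalGroup G] [CompactSpace G]
  [MeasurableSpace G] [BorelSpace G] [SecondCountableTopology G]
  {μ : Measure G} [IsProbabilityMeasure μ] [μ.IsHaarMeasure] [μ.IsMulRightInvariant]
  [μ.IsInvInvariant]

lemma conv_smul2 (a b : ℝ) (f g : G → ℝ) :
    conv μ (fun x => a * f x) (fun x => b * g x) = fun x => (a * b) * conv μ f g x := by
  funext x
  rw [Pool.Agent.N989.MK.conv_smul_left, Pool.Agent.N989.MK.conv_smul_right]
  ring

lemma c4_smul (c : Fin 4 → ℝ) (A : Fin 4 → G → ℝ) :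
    c4 μ (fun r x => c r * A r x) = fun x => (∏ r, c r) * c4 μ A x := by
  unfold c4
  rw [conv_smul2, conv_smul2, conv_smul2]
  funext x
  rw [Fin.prod_univ_four]
  ring

lemma ZZ_smul : ∀ (j : ℕ) (c : Pq j → ℝ) (w : Pq j → G → ℝ),
    ZZ μ j (fun q x => c q * w q x) = fun x => (∏ q, c q) * ZZ μ j w x
  | 0, c, w => by
    funext x
    rw [prod_zero']
    rfl
  | j + 1, c, w => by
    funext x
    change ∏ s : Fin 4, c4 μ (fun r => ZZ μ j (fun p x => c (s, r, p) * w (s, r, p) x)) x =
      (∏ q, c q) * ∏ s : Fin 4, c4 μ (fun r => ZZ μ j (fun p => w (s, r, p))) x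
    rw [prod_succ, ← Finset.prod_mul_distrib]
    refine Finset.prod_congr rfl fun s _ => ?_
    have h := fun r => ZZ_smul j (fun p => c (s, r, p)) (fun p => w (s, r, p))
    simp only [h]
    rw [c4_smul]

end grp

/-! ### Multilinearity of the partition functions of the free theory -/

variable {N n : ℕ}

lemma cvR_smul2 (a b : ℝ) (f g : (Fin n → ℝ) → ℝ) :
    cvR (fun x => a * f x) (fun x => b * g x) = fun x => (a * b) * cvR f g x := by
  funext x
  unfold cvR
  rw [← integral_const_mul]
  refine integral_congr_ae (Filter.Eventually.of_forall fun y => ?_)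
  beta_reduce
  ring

lemma ZR_smul : ∀ (j : ℕ) (c : Pq j → ℝ) (w : Pq j → (Fin n → ℝ) → ℝ),
    ZR j (fun q x => c q * w q x) = fun x => (∏ q, c q) * ZR j w x
  | 0, c, w => by
    funext x
    rw [prod_zero']
    rfl
  | j + 1, c, w => by
    funext x
    change ∏ s : Fin 4,
      cvR (cvR (ZR j fun p x => c (s, 0, p) * w (s, 0, p) x)
          (ZR j fun p x => c (s, 1, p) * w (s, 1, p) x))
        (cvR (ZR j fun p x => c (s, 2, p) * w (s, 2, p) x)
          (ZR j fun p x => c (s, 3, p) * w (s, 3, p) x)) x =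
      (∏ q, c q) * ∏ s : Fin 4,
      cvR (cvR (ZR j fun p => w (s, 0, p)) (ZR j fun p => w (s, 1, p)))
        (cvR (ZR j fun p => w (s, 2, p)) (ZR j fun p => w (s, 3, p))) x
    rw [prod_succ, ← Finset.prod_mul_distrib]
    refine Finset.prod_congr rfl fun s _ => ?_
    have h := fun r : Fin 4 => ZR_smul j (fun p => c (s, r, p)) (fun p => w (s, r, p))
    rw [h 0, h 1, h 2, h 3, cvR_smul2, cvR_smul2, cvR_smul2, Fin.prod_univ_four]
    ring

lemma insR_smul {j r : ℕ} (p : Fin r → Pq j) (κ : ℝ) (O : Fin r → (Fin n → ℝ) → ℝ) (q : Pq j)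
    (x : Fin n → ℝ) :
    insR p (fun a x => κ * O a x) q x =
      (open Classical in ∏ a, if q = p a then κ else 1) * insR p O q x := by
  classical
  unfold insR
  rw [← Finset.prod_mul_distrib]
  refine Finset.prod_congr rfl fun a _ => ?_
  by_cases h : q = p a
  · simp [h]
  · simp [h]

lemma prod_prod_ite {j r : ℕ} (p : Fin r → Pq j) (κ : ℝ) :
    (open Classical in ∏ q, ∏ a, if q = p a then κ else 1) = κ ^ r := by
  classical
  rw [Finset.prod_comm]
  simp

lemma ER_smul {j r : ℕ} (p : Fin r → Pq j) (κ : ℝ) (O : Fin r → (Fin n → ℝ) → ℝ) :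
    ER p (fun a x => κ * O a x) = κ ^ r * ER p O := by
  classical
  unfold ER
  have h1 : (fun (q : Pq j) (x : Fin n → ℝ) => gs x * insR p (fun a x => κ * O a x) q x) =
      fun q x => (open Classical in ∏ a, if q = p a then κ else 1) * (gs x * insR p O q x) := by
    funext q x
    rw [insR_smul]
    ring
  rw [h1, ZR_smul, integral_const_mul, prod_prod_ite, mul_div_assoc]

/-! ### Gaussians -/

/-- `exp (- a |x|²)` -/
def ga (a : ℝ) (x : Fin n → ℝ) : ℝ := Real.exp (-a * ∑ b, x b ^ 2)

lemma ga_eq (a : ℝ) (x : Fin n → ℝ) : ga a x = ∏ b, Real.exp (-a * x b ^ 2) := by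
  unfold ga
  rw [← Real.exp_sum, Finset.mul_sum]

lemma int_ga {a : ℝ} (ha : 0 < a) : 0 < ∫ x : Fin n → ℝ, ga a x := by
  simp only [ga_eq]
  rw [integral_fintype_prod_volume_eq_prod (fun (_ : Fin n) (t : ℝ) => Real.exp (-a * t ^ 2))]
  refine Finset.prod_pos fun _ _ => ?_
  rw [integral_gaussian]
  positivity

lemma cvR_ga {a b : ℝ} (ha : 0 < a) (hb : 0 < b) :
    cvR (n := n) (ga a) (ga b) = fun x => (∫ y : Fin n → ℝ, ga (a + b) y) * ga (a * b / (a + b)) x := by
  funext x
  unfold cvR
  have hab : 0 < a + b := by linarith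
  rw [← integral_mul_const, ← integral_add_right_eq_self _ ((b / (a + b)) • x)]
  refine integral_congr_ae (Filter.Eventually.of_forall fun y => ?_)
  beta_reduce
  unfold ga
  rw [← Real.exp_add, ← Real.exp_add]
  congr 1
  rw [Finset.mul_sum, Finset.mul_sum, Finset.mul_sum, Finset.mul_sum, ← Finset.sum_add_distrib,
    ← Finset.sum_add_distrib]
  refine Finset.sum_congr rfl fun i _ => ?_
  simp only [Pi.sub_apply, Pi.add_apply, Pi.smul_apply, smul_eq_mul]
  field_simp
  ring

lemma ZR_ga : ∀ j : ℕ, ∃ A a : ℝ, 0 < A ∧ 0 < a ∧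
    ZR (n := n) j (fun _ x => gs x) = fun x => A * ga a x
  | 0 => ⟨1, 1 / 2, one_pos, by norm_num, by
      funext x
      change gs x = 1 * ga (1 / 2) x
      unfold gs ga
      rw [one_mul]
      congr 1
      ring⟩
  | j + 1 => by
    obtain ⟨A, a, hA, ha, h⟩ := ZR_ga j
    have h2 : 0 < a * a / (a + a) := by positivity
    have h3 : 0 < a * a / (a + a) * (a * a / (a + a)) / (a * a / (a + a) + a * a / (a + a)) := by
      positivity
    set I1 := ∫ y : Fin n → ℝ, ga (a + a) y with hI1
    set I2 := ∫ y : Fin n → ℝ, ga (a * a / (a + a) + a * a / (a + a)) y with hI2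
    have hI1p : 0 < I1 := int_ga (by positivity)
    have hI2p : 0 < I2 := int_ga (by positivity)
    refine ⟨(A * I1 * (A * I1) * (A * A) * I2) ^ 4,
      4 * (a * a / (a + a) * (a * a / (a + a)) / (a * a / (a + a) + a * a / (a + a))),
      by positivity, by positivity, ?_⟩
    funext x
    change ∏ s : Fin 4,
      cvR (cvR (ZR j fun _ => gs) (ZR j fun _ => gs)) (cvR (ZR j fun _ => gs) (ZR j fun _ => gs)) x = _
    have h' : ZR (n := n) j (fun _ => gs) = fun x => A * ga a x := h
    have e1 : cvR (fun x : Fin n → ℝ => A * ga a x) (fun x => A * ga a x) =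
        fun x => (A * A * I1) * ga (a * a / (a + a)) x := by
      rw [cvR_smul2, cvR_ga ha ha]
      funext x
      rw [← hI1]
      ring
    have e2 : cvR (fun x : Fin n → ℝ => (A * A * I1) * ga (a * a / (a + a)) x)
        (fun x => (A * A * I1) * ga (a * a / (a + a)) x) =
        fun x => (A * I1 * (A * I1) * (A * A) * I2) *
          ga (a * a / (a + a) * (a * a / (a + a)) / (a * a / (a + a) + a * a / (a + a))) x := by
      rw [cvR_smul2, cvR_ga h2 h2]
      funext x
      rw [← hI2]
      ring
    rw [h', e1, e2, Finset.prod_const, Finset.card_univ, Fintype.card_fin]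
    beta_reduce
    rw [mul_pow]
    congr 1
    unfold ga
    rw [← Real.exp_nat_mul]
    congr 1
    push_cast
    ring

lemma ZR_pos (j : ℕ) : 0 < ∫ x, ZR (n := n) j (fun _ x => gs x) x := by
  obtain ⟨A, a, hA, ha, h⟩ := ZR_ga (n := n) j
  rw [h, integral_const_mul]
  exact mul_pos hA (int_ga ha)

lemma quot_aux (A D : ℝ) {u v : ℝ} (hu : u ≠ 0) (hv : v ≠ 0) :
    A / u / v / (D / u / v) = A / D := by
  by_cases hD : D = 0
  · simp [hD]
  · field_simp

lemma gs_pos' : 0 < ∫ x : Fin n → ℝ, gs x := ZR_pos 0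

/-! ### Scaling limits -/

open Pool.Agent.N839.T3 (SD)

variable {G : Subgroup (UN N)} {B : Frame G n} {hG : IsClosed (G : Set (UN N))} {ι : Type*}
  {l : Filter ι} {h : ι → ℝ}

variable [MeasurableSpace G] [BorelSpace G] {μ : Measure G} [IsProbabilityMeasure μ]
  [μ.IsHaarMeasure] [CompactSpace G] [SecondCountableTopology G] [μ.IsMulRightInvariant]
  [μ.IsInvInvariant]

lemma nz_pos (t : ℝ) : 0 < nz μ t := by
  unfold nz
  have hc : Continuous fun y : G => Real.exp (-(t / 2 * nN y ^ 2)) :=
    Real.continuous_exp.comp ((continuous_const.mul (nN_cont.pow 2)).neg)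
  exact hc.integral_pos_of_hasCompactSupport_nonneg_nonzero (HasCompactSupport.of_compactSpace _)
    (fun y => (Real.exp_pos _).le) (x := 1) (Real.exp_pos _).ne'

/-- Expectations of products of observables of plaquettes. -/
theorem Ex_lim [l.IsCountablyGenerated] [l.NeBot] {f : ι → G → ℝ} (hf : ∀ m, Adm (f m))
    (hS : SD B hG l h (fun m y => f m y / f m 1) gs) {j r : ℕ} (p : Fin r → Pq j)
    {O : Fin r → ι → G → ℝ} {o : Fin r → (Fin n → ℝ) → ℝ} (hO : ∀ a m, Continuous (O a m))
    (hc : ∀ a m, Cls (O a m))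
    (hSO : ∀ q, SD B hG l h (fun m x => f m x / f m 1 * inss p (fun a => O a m) q x)
      (fun x => gs x * insR p o q x)) :
    Tendsto (fun m => Ex μ (f m) j (fun U => ∏ a, O a m (hol U (p a)))) l (𝓝 (ER p o)) := by
  have h3 := Pool.Agent.N565.MK.SD.ratio (μ := μ) j (w := fun q m x => f m x / f m 1 * inss p (fun a => O a m) q x)
    (w' := fun _ m x => f m x / f m 1) (γ := fun q x => gs x * insR p o q x)
    (γ' := fun _ x => gs x) hSO (fun _ => hS) (fun i => (nz_pos (μ := μ) (h i)).ne')
    (gs_pos' (n := n)).ne' (ZR_pos (n := n) j).ne'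
  refine h3.congr fun m => ?_
  have hm := (hf m).pos 1
  rw [Ex_inss (hf m) p (fun a => hO a m) (fun a => hc a m)]
  have e2 : (fun (q : Pq j) x => f m x * inss p (fun a => O a m) q x) =
      fun q x => f m 1 * (f m x / f m 1 * inss p (fun a => O a m) q x) := by
    funext q x
    field_simp
  have e3 : TTn μ (f m) j = fun x => (∏ _q : Pq j, f m 1) * ZZ μ j (fun _ x => f m x / f m 1) x := by
    rw [← ZZ_smul (μ := μ) j (fun _ => f m 1) (fun _ x => f m x / f m 1),
      ← WF_one (μ := μ) (Z := f m) j (fun _ _ => 1) (fun _ _ => rfl)]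
    unfold WF
    congr 1
    funext q x
    field_simp
  rw [e2, ZZ_smul (μ := μ) j (fun _ => f m 1), e3, integral_const_mul, integral_const_mul]
  have hP : (∏ _q : Pq j, f m 1) ≠ 0 := Finset.prod_ne_zero_iff.2 fun _ _ => hm.ne'
  rw [mul_div_mul_left _ _ hP]

/-- **P4.** The scaled centred correlation functions of the field converge to those of the free
theory. -/
theorem Cn_lim [l.IsCountablyGenerated] [l.NeBot] {f φ : ι → G → ℝ} {κ : ℝ}
    (hf : ∀ m, Adm (f m)) (hφ : ∀ m, Continuous (φ m)) (hφc : ∀ m, Cls (φ m))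
    (hS : SD B hG l h (fun m y => f m y / f m 1) gs)
    (hSφ : SD B hG l h (fun m y => h m * φ m y * (f m y / f m 1)) (fun x => κ * fr x * gs x))
    {j r : ℕ} {α : Fin r → Pq j} (hα : Function.Injective α) :
    Tendsto (fun m => h m ^ r * Cn μ (f m) j α (φ m)) l (𝓝 (κ ^ r * CR n α)) := by
  classical
  -- the one-point functions
  have h1 : ∀ a : Fin r, Tendsto (fun m => Ex μ (f m) j (fun U => h m * φ m (hol U (α a)))) l
      (𝓝 (κ * ER (fun _ : Fin 1 => α a) fun _ (x : Fin n → ℝ) => fr x)) := by
    intro a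
    have h2 := Ex_lim (μ := μ) hf hS (fun _ : Fin 1 => α a)
      (O := fun _ m x => h m * φ m x) (o := fun _ x => κ * fr x)
      (fun _ m => continuous_const.mul (hφ m)) (fun _ m g x => by beta_reduce; rw [hφc m g x])
      (fun q => by
        by_cases hq : q = α a
        · refine hSφ.congr (fun m x => ?_) (fun x => ?_)
          · simp only [inss, hq, if_true, Finset.prod_const, Finset.card_univ, Fintype.card_fin,
              pow_one]
            ring
          · simp only [insR, hq, if_true, Finset.prod_const, Finset.card_univ, Fintype.card_fin,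
              pow_one]
            ring
        · refine hS.congr (fun m x => ?_) (fun x => ?_)
          · simp [inss, hq]
          · simp [insR, hq])
    rw [ER_smul, pow_one] at h2
    refine h2.congr fun m => ?_
    simp
  have h3 := Ex_lim (μ := μ) hf hS α
    (O := fun a m x => h m * φ m x - Ex μ (f m) j (fun U => h m * φ m (hol U (α a))))
    (o := fun a x => κ * (fr x - ER (fun _ : Fin 1 => α a) fun _ (x : Fin n → ℝ) => fr x))
    (fun a m => (continuous_const.mul (hφ m)).sub continuous_const)
    (fun _ m g x => by beta_reduce; rw [hφc m g x])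
    (fun q => by
      by_cases hq : ∃ a, q = α a
      · obtain ⟨a, rfl⟩ := hq
        refine (hSφ.add (hS.smul (h1 a).neg)).congr (fun m x => ?_) (fun x => ?_)
        · unfold inss
          rw [Finset.prod_eq_single a (fun b _ hb => if_neg fun h4 => hb (hα h4).symm)
            (fun h4 => absurd (Finset.mem_univ _) h4), if_pos rfl]
          ring
        · unfold insR
          rw [Finset.prod_eq_single a (fun b _ hb => if_neg fun h4 => hb (hα h4).symm)
            (fun h4 => absurd (Finset.mem_univ _) h4), if_pos rfl]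
          ring
      · push Not at hq
        refine hS.congr (fun m x => ?_) (fun x => ?_)
        · unfold inss
          rw [Finset.prod_eq_one fun a _ => if_neg (hq a), mul_one]
        · unfold insR
          rw [Finset.prod_eq_one fun a _ => if_neg (hq a), mul_one])
  rw [ER_smul] at h3
  refine h3.congr fun m => ?_
  have h5 := Cn_affine (μ := μ) (hf m) α (hφ m) (h m) 0
  simp only [add_zero] at h5
  rw [← h5]
  rfl

end

end Pool.Agent.N681.T3
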