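import Mathlib
import Pool.Agent.N109.T3.VolB
import Pool.Agent.N109.T3.RF
import Pool.Agent.N109.T3.Sc
import Pool.Agent.N838.T3.FreeG
import Pool.Agent.N985.T3.FreeK

/-!
# The short distance law, uniformly in the volume: centred correlation functions

From the uniform convergence of the expectations of products of the scaled field to that of the
centred correlation functions, and to the two-point law at all short distances.
-/

open MeasureTheory ProbabilityTheory Pool.Agent.N991.MK Pool.Agent.N989.MK Filter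
open scoped Topology ENNReal
open Pool.Agent.N109.T3

namespace Pool.Agent.N681.T3

set_option linter.unusedSectionVars false

noncomputable section

/-! ### Uniform convergence of bounded families -/

/-- uniform convergence to a bounded family -/
def UL {κ : Type*} (x : ℕ → κ → ℝ) (y : κ → ℝ) : Prop :=
  (∃ K : ℝ, ∀ i, |y i| ≤ K) ∧ ∀ ε : ℝ, 0 < ε → ∃ m0 : ℕ, ∀ m i, m0 ≤ m → |x m i - y i| ≤ ε

variable {κ : Type*} {x x' : ℕ → κ → ℝ} {y y' : κ → ℝ}

lemma UL.const (c : ℝ) : UL (fun _ (_ : κ) => c) fun _ => c :=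
  ⟨⟨|c|, fun _ => le_rfl⟩, fun ε hε => ⟨0, fun m i _ => by simpa using hε.le⟩⟩

lemma UL.add (h : UL x y) (h' : UL x' y') : UL (fun m i => x m i + x' m i) fun i => y i + y' i := by
  obtain ⟨⟨K, hK⟩, h⟩ := h
  obtain ⟨⟨K', hK'⟩, h'⟩ := h'
  refine ⟨⟨K + K', fun i => (abs_add_le _ _).trans (add_le_add (hK i) (hK' i))⟩, fun ε hε => ?_⟩
  obtain ⟨m0, h0⟩ := h (ε / 2) (by positivity)
  obtain ⟨m1, h1⟩ := h' (ε / 2) (by positivity)
  refine ⟨max m0 m1, fun m i hm => ?_⟩
  have e0 := h0 m i ((le_max_left _ _).trans hm)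
  have e1 := h1 m i ((le_max_right _ _).trans hm)
  calc |x m i + x' m i - (y i + y' i)| = |(x m i - y i) + (x' m i - y' i)| := by congr 1; ring
    _ ≤ |x m i - y i| + |x' m i - y' i| := abs_add_le _ _
    _ ≤ ε := by linarith

lemma UL.mul (h : UL x y) (h' : UL x' y') : UL (fun m i => x m i * x' m i) fun i => y i * y' i := by
  obtain ⟨⟨K, hK⟩, h⟩ := h
  obtain ⟨⟨K', hK'⟩, h'⟩ := h'
  have k1 : ∀ i, |y i| ≤ max K 0 := fun i => (hK i).trans (le_max_left _ _)
  have k2 : ∀ i, |y' i| ≤ max K' 0 := fun i => (hK' i).trans (le_max_left _ _)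
  have p1 : 0 ≤ max K 0 := le_max_right _ _
  have p2 : 0 ≤ max K' 0 := le_max_right _ _
  refine ⟨⟨max K 0 * max K' 0, fun i => ?_⟩, fun ε hε => ?_⟩
  · rw [abs_mul]
    exact mul_le_mul (k1 i) (k2 i) (abs_nonneg _) p1
  · set δ := min 1 (ε / (max K 0 + max K' 0 + 1)) with hδ
    have hδ0 : 0 < δ := lt_min one_pos (by positivity)
    have hδ1 : δ ≤ 1 := min_le_left _ _
    have hδ2 : δ * (max K 0 + max K' 0 + 1) ≤ ε := by
      rw [← le_div_iff₀ (by positivity)]
      exact min_le_right _ _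
    obtain ⟨m0, h0⟩ := h δ hδ0
    obtain ⟨m1, h1⟩ := h' δ hδ0
    refine ⟨max m0 m1, fun m i hm => ?_⟩
    have e0 := h0 m i ((le_max_left _ _).trans hm)
    have e1 := h1 m i ((le_max_right _ _).trans hm)
    have e2 : |x' m i| ≤ max K' 0 + 1 := by
      have := abs_add_le (y' i) (x' m i - y' i)
      rw [add_sub_cancel] at this
      linarith [k2 i]
    calc |x m i * x' m i - y i * y' i| = |(x m i - y i) * x' m i + y i * (x' m i - y' i)| := by
          congr 1; ring
      _ ≤ |x m i - y i| * |x' m i| + |y i| * |x' m i - y' i| := by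
          refine (abs_add_le _ _).trans ?_
          rw [abs_mul, abs_mul]
      _ ≤ δ * (max K' 0 + 1) + max K 0 * δ :=
          add_le_add (mul_le_mul e0 e2 (abs_nonneg _) hδ0.le)
            (mul_le_mul (k1 i) e1 (abs_nonneg _) p1)
      _ = δ * (max K 0 + max K' 0 + 1) := by ring
      _ ≤ ε := hδ2

lemma UL.neg (h : UL x y) : UL (fun m i => -x m i) fun i => -y i := by
  have := (UL.const (κ := κ) (-1)).mul h
  simpa using this

lemma UL.sum {ι : Type*} (s : Finset ι) {x : ι → ℕ → κ → ℝ} {y : ι → κ → ℝ}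
    (h : ∀ a ∈ s, UL (x a) (y a)) : UL (fun m i => ∑ a ∈ s, x a m i) fun i => ∑ a ∈ s, y a i := by
  classical
  induction s using Finset.induction_on with
  | empty =>
    simp only [Finset.sum_empty]
    exact UL.const 0
  | insert a s ha ih =>
    simp only [Finset.sum_insert ha]
    exact (h a (Finset.mem_insert_self a s)).add
      (ih fun b hb => h b (Finset.mem_insert_of_mem hb))

lemma UL.prod {ι : Type*} (s : Finset ι) {x : ι → ℕ → κ → ℝ} {y : ι → κ → ℝ}
    (h : ∀ a ∈ s, UL (x a) (y a)) : UL (fun m i => ∏ a ∈ s, x a m i) fun i => ∏ a ∈ s, y a i := by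
  classical
  induction s using Finset.induction_on with
  | empty =>
    simp only [Finset.prod_empty]
    exact UL.const 1
  | insert a s ha ih =>
    simp only [Finset.prod_insert ha]
    exact (h a (Finset.mem_insert_self a s)).mul
      (ih fun b hb => h b (Finset.mem_insert_of_mem hb))

lemma UL.congr (h : UL x y) (hx : ∀ m i, x m i = x' m i) (hy : ∀ i, y i = y' i) : UL x' y' := by
  have e1 : x = x' := funext fun m => funext fun i => hx m i
  have e2 : y = y' := funext hy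
  rwa [← e1, ← e2]

/-! ### All moments -/

/-- all moments are finite -/
def AM {Ω : Type*} [MeasurableSpace Ω] (P : Measure Ω) (f : Ω → ℝ) : Prop :=
  ∀ k : ℕ, MemLp f ((2 : ℝ≥0∞) ^ k) P

section am

variable {Ω : Type*} [MeasurableSpace Ω] {P : Measure Ω} {f g : Ω → ℝ}

lemma AM.add (hf : AM P f) (hg : AM P g) : AM P fun ω => f ω + g ω := fun k => (hf k).add (hg k)

lemma AM.const [IsFiniteMeasure P] (c : ℝ) : AM P fun _ => c := fun _ => memLp_const c

lemma AM.mul (hf : AM P f) (hg : AM P g) : AM P fun ω => f ω * g ω := fun k => by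
  have : ENNReal.HolderTriple ((2 : ℝ≥0∞) ^ (k + 1)) ((2 : ℝ≥0∞) ^ (k + 1)) ((2 : ℝ≥0∞) ^ k) := by
    constructor
    have h2 : ((2 : ℝ≥0∞) ^ (k + 1))⁻¹ = ((2 : ℝ≥0∞) ^ k)⁻¹ * 2⁻¹ := by
      rw [pow_succ, ENNReal.mul_inv (Or.inr (by simp)) (Or.inr (by simp))]
    rw [h2, ← mul_add, ENNReal.inv_two_add_inv_two, mul_one]
  exact (hg (k + 1)).mul' (hf (k + 1))

lemma AM.sum [IsFiniteMeasure P] {ι : Type*} (s : Finset ι) {f : ι → Ω → ℝ}
    (h : ∀ a, AM P (f a)) : AM P fun ω => ∑ a ∈ s, f a ω := by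
  classical
  induction s using Finset.induction_on with
  | empty =>
    simp only [Finset.sum_empty]
    exact AM.const 0
  | insert a s ha ih =>
    simp only [Finset.sum_insert ha]
    exact (h a).add ih

lemma AM.prod [IsFiniteMeasure P] {ι : Type*} (s : Finset ι) {f : ι → Ω → ℝ}
    (h : ∀ a, AM P (f a)) : AM P fun ω => ∏ a ∈ s, f a ω := by
  classical
  induction s using Finset.induction_on with
  | empty =>
    simp only [Finset.prod_empty]
    exact AM.const 1
  | insert a s ha ih =>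
    simp only [Finset.prod_insert ha]
    exact (h a).mul ih

lemma AM.int (hf : AM P f) : Integrable f P := by
  have := hf 0
  rw [pow_zero] at this
  exact memLp_one_iff_integrable.1 this

end am

/-- the curvature has all moments -/
lemma am_coord (n j : ℕ) (q : Pq j) (b : Fin n) :
    AM (free n j) fun Y : Fin n → cf j => (Y b).1 q := by
  intro k
  have hk : ((2 : ℝ≥0∞) ^ k) ≠ ∞ := ENNReal.pow_ne_top (by simp)
  have h1 : MemLp (id : cf j → cf j) ((2 : ℝ≥0∞) ^ k) (stdGaussian (cf j)) :=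
    IsGaussian.memLp_id _ _ hk
  have h2 : MemLp (fun v : cf j => v.1 q) ((2 : ℝ≥0∞) ^ k) (stdGaussian (cf j)) := by
    let L : cf j →L[ℝ] ℝ :=
      (EuclideanSpace.proj q : EuclideanSpace ℝ (Pq j) →L[ℝ] ℝ).comp (cf j).subtypeL
    exact L.comp_memLp' h1
  have h3 : MeasurePreserving (fun Y : Fin n → cf j => Y b) (free n j) (stdGaussian (cf j)) :=
    measurePreserving_eval _ b
  exact h2.comp_measurePreserving h3

lemma am_fr (n j : ℕ) (q : Pq j) :
    AM (free n j) fun Y : Fin n → cf j => fr (fun b => (Y b).1 q) := by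
  have := Pool.Agent.N838.T3.free_univ n j
  have h1 : AM (free n j) fun Y : Fin n → cf j => (∑ b, (Y b).1 q * (Y b).1 q) * (-1 / 2) :=
    (AM.sum _ fun b => (am_coord n j q b).mul (am_coord n j q b)).mul (AM.const _)
  have e : (fun Y : Fin n → cf j => (∑ b, (Y b).1 q * (Y b).1 q) * (-1 / 2)) =
      fun Y : Fin n → cf j => fr (fun b => (Y b).1 q) := by
    funext Y
    unfold fr
    have e2 : ∑ b, (Y b).1 q * (Y b).1 q = ∑ b, (Y b).1 q ^ 2 :=
      Finset.sum_congr rfl fun b _ => by ring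
    rw [e2]
    ring
  rwa [e] at h1

open Classical in
/-- **the expansion of the centred correlation functions of the free theory** -/
theorem CR_expand (n : ℕ) {j r : ℕ} (p : Fin r → Pq j) :
    CR n p = ∑ t ∈ (Finset.univ : Finset (Fin r)).powerset,
      ER (n := n) p (fun a => if a ∈ t then fr else fun _ => 1) *
        ∏ a ∈ Finset.univ \ t,
          -ER (n := n) p (fun c => if c ∈ ({a} : Finset (Fin r)) then fr else fun _ => 1) := by
  have := Pool.Agent.N838.T3.free_univ n j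
  have hER : ∀ t : Finset (Fin r), ER (n := n) p (fun a => if a ∈ t then fr else fun _ => 1) =
      ∫ Y : Fin n → cf j, ∏ a ∈ t, fr (fun b => (Y b).1 (p a)) ∂(free n j) := by
    intro t
    rw [Pool.Agent.N838.T3.ER_eq]
    · refine integral_congr_ae (Eventually.of_forall fun Y => ?_)
      beta_reduce
      rw [← Finset.prod_subset (Finset.subset_univ t)]
      · refine Finset.prod_congr rfl fun a ha => ?_
        simp only [ha, if_true]
      · intro a _ ha
        simp only [ha, if_false]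
    · intro a
      by_cases ha : a ∈ t
      · simp only [ha, if_true]
        exact Pool.Agent.N838.T3.Pgr.fr
      · simp only [ha, if_false]
        exact Pool.Agent.N838.T3.Pgr.one
  have h1 : ∀ a : Fin r, ER (n := n) (fun _ : Fin 1 => p a) (fun _ (x : Fin n → ℝ) => fr x) =
      ER (n := n) p (fun c => if c ∈ ({a} : Finset (Fin r)) then fr else fun _ => 1) := by
    intro a
    rw [hER, Pool.Agent.N838.T3.ER_eq _ _ fun _ => Pool.Agent.N838.T3.Pgr.fr]
    refine integral_congr_ae (Eventually.of_forall fun Y => ?_)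
    beta_reduce
    rw [Finset.prod_singleton, Fin.prod_univ_one]
  unfold CR
  rw [Pool.Agent.N838.T3.ER_eq _ _ fun a =>
    Pool.Agent.N838.T3.Pgr.fr.sub (Pool.Agent.N838.T3.Pgr.const _)]
  simp only [h1]
  obtain ⟨m, hm⟩ : ∃ m : Fin r → ℝ, m = fun a =>
    ER (n := n) p (fun c => if c ∈ ({a} : Finset (Fin r)) then fr else fun _ => 1) := ⟨_, rfl⟩
  have hm' : ∀ a, ER (n := n) p (fun c => if c ∈ ({a} : Finset (Fin r)) then fr else fun _ => 1) =
      m a := fun a => by rw [hm]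
  simp only [hm', hER]
  have e1 : ∀ Y : Fin n → cf j, ∏ a, (fr (fun b => (Y b).1 (p a)) - m a) =
      ∑ t ∈ (Finset.univ : Finset (Fin r)).powerset,
        (∏ a ∈ t, fr (fun b => (Y b).1 (p a))) * ∏ a ∈ Finset.univ \ t, -m a := by
    intro Y
    rw [← Finset.prod_add]
    exact Finset.prod_congr rfl fun a _ => by rw [sub_eq_add_neg]
  simp only [e1]
  rw [integral_finsetSum]
  · exact Finset.sum_congr rfl fun t _ => by rw [integral_mul_const]
  · intro t _
    exact ((AM.prod t fun a => am_fr n j (p a)).int).mul_const _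

/-! ### The centred correlation functions -/

variable {G : Type*} [Group G] [TopologicalSpace G] [IsTopologicalGroup G] [CompactSpace G]
  [MeasurableSpace G] [BorelSpace G] [SecondCountableTopology G]
  {μ : Measure G} [IsProbabilityMeasure μ] [μ.IsHaarMeasure] [μ.IsMulRightInvariant]
  [μ.IsInvInvariant]

lemma Cn_expand {Z : G → ℝ} (hZ : Adm Z) {O : G → ℝ} (hO : Continuous O) {j r : ℕ}
    (p : Fin r → Pq j) : Cn μ Z j p O = ∑ t ∈ (Finset.univ : Finset (Fin r)).powerset,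
      Ex μ Z j (fun U => ∏ a ∈ t, O (hol U (p a))) *
        ∏ a ∈ Finset.univ \ t, -Ex μ Z j (fun U => ∏ c ∈ ({a} : Finset (Fin r)), O (hol U (p c))) := by
  have hs : ∀ a : Fin r, Ex μ Z j (fun U => ∏ c ∈ ({a} : Finset (Fin r)), O (hol U (p c))) =
      Ex μ Z j (fun U => O (hol U (p a))) := by
    intro a
    simp only [Finset.prod_singleton]
  simp only [hs]
  unfold Cn
  have e1 : (fun U : Ed j → G => ∏ a, (O (hol U (p a)) - Ex μ Z j (fun U => O (hol U (p a))))) =
      fun U => ∑ t ∈ Finset.univ.powerset, (∏ a ∈ t, O (hol U (p a))) *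
        ∏ a ∈ Finset.univ \ t, -Ex μ Z j (fun U => O (hol U (p a))) := by
    funext U
    rw [← Finset.prod_add]
    exact Finset.prod_congr rfl fun a _ => by rw [sub_eq_add_neg]
  rw [e1, Ex_sum hZ _ (fun t : Finset (Fin r) => ∏ a ∈ Finset.univ \ t,
    -Ex μ Z j (fun U => O (hol U (p a)))) (fun t _ =>
      continuous_finsetProd _ fun a _ => cont_obs hO _)]

open Classical in
/-- **the centred correlation functions converge uniformly** -/
theorem centred_unif {n : ℕ} {Z φ : ℕ → G → ℝ} (hZ : ∀ m, Adm (Z m)) (hφ : ∀ m, Continuous (φ m))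
    {h : ℕ → ℝ} {j r : ℕ} (α : Fin r → Pq j)
    (hU : ∀ t : Finset (Fin r), UL (fun m (i : Σ d, Pq d) =>
        Ex μ (Z m) (j + i.1) (fun U => ∏ a ∈ t, (h m * φ m (hol U (jn i.2 (α a))))))
      (fun i => ER (n := n) (fun a => jn i.2 (α a)) fun a => if a ∈ t then fr else fun _ => 1)) :
    UL (fun m (i : Σ d, Pq d) =>
        h m ^ r * Cn μ (Z m) (j + i.1) (fun a => jn i.2 (α a)) (φ m))
      (fun i => CR n fun a => jn i.2 (α a)) := by
  refine (UL.sum (Finset.univ : Finset (Fin r)).powerset fun t _ => (hU t).mul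
    (UL.prod (Finset.univ \ t) fun a _ => (hU {a}).neg)).congr (fun m i => ?_) (fun i => ?_)
  · have h5 := Cn_affine (μ := μ) (hZ m) (fun a => jn i.2 (α a)) (hφ m) (h m) 0
    simp only [add_zero] at h5
    have hc : Continuous fun x => h m * φ m x := continuous_const.mul (hφ m)
    rw [← h5, Cn_expand (hZ m) hc]
  · rw [CR_expand]

open Classical in
/-- **the field `free`** -/
theorem free_unif {n : ℕ} {Z φ : ℕ → G → ℝ} (hZ : ∀ m, Adm (Z m)) (hφ : ∀ m, Continuous (φ m))
    {cA : ℝ} (hcA : 0 < cA) {j r : ℕ} (α : Fin r → Pq j)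
    (hU : ∀ t : Finset (Fin r), UL (fun m (i : Σ d, Pq d) =>
        Ex μ (Z m) (j + i.1) (fun U => ∏ a ∈ t, (cA / 8 * m * φ m (hol U (jn i.2 (α a))))))
      (fun i => ER (n := n) (fun a => jn i.2 (α a)) fun a => if a ∈ t then fr else fun _ => 1)) :
    UL (fun m (i : Σ d, Pq d) =>
        (m : ℝ) ^ r * Cn μ (Z m) (j + i.1) (fun a => jn i.2 (α a)) (φ m))
      (fun i => (8 / cA) ^ r * CG n fun a => jn i.2 (α a)) := by
  refine ((UL.const ((8 / cA) ^ r)).mul (centred_unif (n := n) hZ hφ (h := fun m => cA / 8 * m) α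
    hU)).congr (fun m i => ?_) (fun i => ?_)
  · have e : (8 / cA) ^ r * (cA / 8 * (m : ℝ)) ^ r = (m : ℝ) ^ r := by
      rw [← mul_pow]
      congr 1
      field_simp
    rw [← mul_assoc, e]
  · rw [Pool.Agent.N838.T3.CR_eq_CG]

/-! ### The two-point law -/

lemma one_le_anc : ∀ {j : ℕ} {p q : Pq j}, p ≠ q → 1 ≤ anc j p q
  | 0, _, _, h => absurd rfl h
  | j + 1, (s, r, p), (s', r', q), h => by
    change 1 ≤ if s = s' ∧ r = r' then anc j p q else j + 1
    split_ifs with h1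
    · refine one_le_anc fun h2 => h ?_
      rw [h1.1, h1.2, h2]
    · omega

lemma sep_jn_iff {k : ℕ} : ∀ {j : ℕ} {α β : Pq j} (p q : Pq k), α ≠ β →
    (Sep (jn α p) (jn β q) ↔ Sep α β)
  | 0, _, _, _, _, h => absurd rfl h
  | j + 1, (s, r, α), (s', r', β), p, q, h => by
    change (s ≠ s' ∨ (r = r' ∧ Sep (jn α p) (jn β q))) ↔ (s ≠ s' ∨ (r = r' ∧ Sep α β))
    by_cases hs : s = s'
    · by_cases hr : r = r'
      · have hne : α ≠ β := fun h1 => h (by rw [hs, hr, h1])
        rw [sep_jn_iff p q hne]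
      · simp [hs, hr]
    · simp [hs]

/-- the blocks of two different plaquettes -/
lemma split_pair {j : ℕ} (p q : Pq j) (h : p ≠ q) {P : ∀ j, Pq j → Pq j → Prop}
    (H : ∀ (a d : ℕ) (β : Pq d) (α₁ α₂ : Pq 1) (p' q' : Pq a), α₁ ≠ α₂ →
      P (a + (1 + d)) (jn (jn β α₁) p') (jn (jn β α₂) q')) : P j p q := by
  have h1 := one_le_anc h
  have h2 := anc_le p q
  obtain ⟨a, ha⟩ : ∃ a, anc j p q = a + 1 := ⟨anc j p q - 1, by omega⟩
  obtain ⟨d, rfl⟩ : ∃ d, j = a + (1 + d) := ⟨j - (a + 1), by omega⟩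
  obtain ⟨α, p', rfl⟩ := jn_surj p
  obtain ⟨α', q', rfl⟩ := jn_surj q
  have hne : α ≠ α' := by
    rintro rfl
    rw [anc_jn_same] at ha
    have := anc_le p' q'
    omega
  rw [anc_jn _ _ hne] at ha
  obtain ⟨β, α₁, rfl⟩ := jn_surj α
  obtain ⟨β', α₂, rfl⟩ := jn_surj α'
  have hβ : β = β' := by
    by_contra hb
    rw [anc_jn _ _ hb] at ha
    have := one_le_anc hb
    omega
  subst hβ
  exact H a d β α₁ α₂ p' q' fun h3 => hne (by rw [h3])

lemma ul_ratio {κ : Type*} : UL (fun m (_ : κ) => ((m : ℝ) - 1) ^ 2 / (m : ℝ) ^ 2) fun _ => 1 := by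
  refine ⟨⟨1, fun _ => by simp⟩, fun ε hε => ?_⟩
  obtain ⟨m0, h0⟩ := exists_nat_gt (2 / ε)
  refine ⟨m0 + 1, fun m _ hm => ?_⟩
  have hm0 : (m0 : ℝ) + 1 ≤ m := by exact_mod_cast hm
  have hm1 : (1 : ℝ) ≤ m := by
    have : (0 : ℝ) ≤ m0 := Nat.cast_nonneg _
    linarith
  have hmp : (0 : ℝ) < m := by linarith
  have e : ((m : ℝ) - 1) ^ 2 / (m : ℝ) ^ 2 - 1 = -((2 * m - 1) / (m : ℝ) ^ 2) := by
    field_simp
    ring
  rw [e, abs_neg, abs_of_nonneg (by apply div_nonneg; linarith; positivity)]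
  rw [div_le_iff₀ (by positivity)]
  rw [div_lt_iff₀ hε] at h0
  nlinarith

open Classical in
/-- **the field `two`** -/
theorem two_unif {F φ : ℤ → G → ℝ} (hFT : FT μ F φ) {n : ℕ} {cA : ℝ}
    (hf : ∀ α : Fin 2 → Pq 1, Function.Injective α → ∀ ε : ℝ, 0 < ε → ∃ m0 : ℕ,
      ∀ (m d : ℕ) (β : Pq d), m0 ≤ m →
        |(m : ℝ) ^ 2 * Cn μ (F (-m)) (1 + d) (fun a => jn β (α a)) (φ (-m)) -
          (8 / cA) ^ 2 * CG n fun a => jn β (α a)| ≤ ε) :
    ∀ ε : ℝ, 0 < ε → ∃ m0 : ℕ, ∀ (k : ℤ) (j : ℕ) (p q : Pq j), p ≠ q → k + anc j p q ≤ -m0 →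
      |16 ^ (2 * anc j p q) * (k + anc j p q : ℝ) ^ 2 * Cv μ (F k) j p q (φ k) (φ k) -
        n / 2 * (8 / cA) ^ 2 *
          ((4 + (1 / 16 : ℝ) ^ (j - anc j p q)) / 5 - if Sep p q then 0 else 4) ^ 2| ≤ ε := by
  -- the values in the free theory
  have hG : ∀ (α : Fin 2 → Pq 1), Function.Injective α → ∀ (d : ℕ) (β : Pq d),
      CG n (fun a => jn β (α a)) = n / 2 * (((4 + (1 / 16 : ℝ) ^ d) / 5 -
        if Sep (jn β (α 0)) (jn β (α 1)) then 0 else 4) / 16) ^ 2 := by
    intro α hα d β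
    have h01 : α 0 ≠ α 1 := fun h => by
      have := hα h
      simp at this
    have h1 : anc 1 (α 0) (α 1) = 1 := le_antisymm (anc_le _ _) (one_le_anc h01)
    rw [← Pool.Agent.N838.T3.CR_eq_CG, Pool.Agent.N985.T3.CR_pair n (fun a => jn β (α a))
      (fun h => h01 (jn_inj h).2), anc_jn_same, h1, pow_one, Nat.add_sub_cancel_left]
  have hul : ∀ α : Fin 2 → Pq 1, Function.Injective α →
      UL (fun m (i : Σ d, Pq d) =>
        256 * (((m : ℝ) - 1) ^ 2 / (m : ℝ) ^ 2 *
          ((m : ℝ) ^ 2 * Cn μ (F (-m)) (1 + i.1) (fun a => jn i.2 (α a)) (φ (-m)))))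
        (fun i => 256 * (1 * ((8 / cA) ^ 2 * CG n fun a => jn i.2 (α a)))) := by
    intro α hα
    refine (UL.const 256).mul (ul_ratio.mul ⟨⟨(8 / cA) ^ 2 * (n / 2), fun i => ?_⟩,
      fun ε hε => ?_⟩)
    · beta_reduce
      rw [hG α hα, abs_mul, abs_of_nonneg (by positivity : (0 : ℝ) ≤ (8 / cA) ^ 2),
        abs_of_nonneg (by positivity)]
      refine mul_le_mul_of_nonneg_left ?_ (by positivity)
      refine mul_le_of_le_one_right (by positivity) ?_
      have h1 : (1 / 16 : ℝ) ^ i.1 ≤ 1 := pow_le_one₀ (by norm_num) (by norm_num)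
      have h2 : 0 < (1 / 16 : ℝ) ^ i.1 := by positivity
      rw [sq_le_one_iff_abs_le_one, abs_le]
      split_ifs
      · constructor <;> linarith
      · constructor <;> linarith
    · obtain ⟨m0, h0⟩ := hf α hα ε hε
      exact ⟨m0, fun m i hm => h0 m i.1 i.2 hm⟩
  intro ε hε
  have hch : ∀ α : Fin 2 → Pq 1, ∃ m0 : ℕ, Function.Injective α → ∀ (m : ℕ) (i : Σ d, Pq d),
      m0 ≤ m → |256 * (((m : ℝ) - 1) ^ 2 / (m : ℝ) ^ 2 *
          ((m : ℝ) ^ 2 * Cn μ (F (-m)) (1 + i.1) (fun a => jn i.2 (α a)) (φ (-m)))) -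
        256 * (1 * ((8 / cA) ^ 2 * CG n fun a => jn i.2 (α a)))| ≤ ε := by
    intro α
    by_cases hα : Function.Injective α
    · obtain ⟨m0, h0⟩ := (hul α hα).2 ε hε
      exact ⟨m0, fun _ => h0⟩
    · exact ⟨0, fun h => absurd h hα⟩
  choose m0 hm0 using hch
  refine ⟨∑ α, m0 α, fun k j p q hpq => ?_⟩
  refine split_pair p q hpq (P := fun j p q => k + anc j p q ≤ -((∑ α, m0 α : ℕ) : ℤ) →
      |16 ^ (2 * anc j p q) * (k + anc j p q : ℝ) ^ 2 * Cv μ (F k) j p q (φ k) (φ k) -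
        n / 2 * (8 / cA) ^ 2 *
          ((4 + (1 / 16 : ℝ) ^ (j - anc j p q)) / 5 - if Sep p q then 0 else 4) ^ 2| ≤ ε) ?_
  intro a d β α₁ α₂ p' q' hne hk
  have hne' : jn β α₁ ≠ jn β α₂ := fun h => hne (jn_inj h).2
  have hanc1 : anc 1 α₁ α₂ = 1 := le_antisymm (anc_le _ _) (one_le_anc hne)
  have hanc : anc (a + (1 + d)) (jn (jn β α₁) p') (jn (jn β α₂) q') = a + 1 := by
    rw [anc_jn _ _ hne', anc_jn_same, hanc1]
  rw [hanc] at hk ⊢
  obtain ⟨m, hm⟩ : ∃ m : ℕ, k + a = -m := ⟨(-(k + a)).toNat, by omega⟩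
  have hα : Function.Injective ![α₁, α₂] := inj2 hne
  have hle : m0 ![α₁, α₂] ≤ m := by
    have := Finset.single_le_sum (f := m0) (fun _ _ => Nat.zero_le _)
      (Finset.mem_univ ![α₁, α₂])
    omega
  have h1 := hm0 ![α₁, α₂] hα m ⟨d, β⟩ hle
  have h2 := hFT.cv k hne' p' q'
  rw [hm, Cv_eq (μ := μ) (hFT.adm (-(m : ℤ))) (jn β α₁) (jn β α₂) (hFT.cont (-(m : ℤ)))] at h2
  have e1 : (![jn β α₁, jn β α₂] : Fin 2 → Pq (1 + d)) = fun a => jn β (![α₁, α₂] a) := by
    funext a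
    fin_cases a <;> rfl
  rw [e1] at h2
  dsimp only at h1
  rw [← h2, hG _ hα] at h1
  have hmp : 1 ≤ m := by
    omega
  have hmp' : (1 : ℝ) ≤ m := by exact_mod_cast hmp
  have hk' : (k : ℝ) = -m - a := by
    have : k = -m - a := by omega
    rw [this]
    push_cast
    ring
  refine le_trans (le_of_eq ?_) h1
  have hsep : (if Sep (jn (jn β α₁) p') (jn (jn β α₂) q') then (0 : ℝ) else 4) =
      if Sep (jn β (![α₁, α₂] 0)) (jn β (![α₁, α₂] 1)) then 0 else 4 := by
    simp only [Matrix.cons_val_zero, Matrix.cons_val_one]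
    exact if_congr (sep_jn_iff p' q' hne') rfl rfl
  rw [hsep]
  have hd : a + (1 + d) - (a + 1) = d := by omega
  rw [hd]
  congr 1
  push_cast
  rw [hk']
  have e3 : (16 : ℝ) ^ (2 * (a + 1)) = 256 * 16 ^ (2 * a) := by
    rw [mul_add, pow_add]
    norm_num
    ring
  rw [e3]
  field_simp
  ring

end

end Pool.Agent.N681.T3
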