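import Mathlib
import Pool.Agent.N109.T3.RF

/-!
# The operator product expansion, piece P5

The conditional expectation of the product of two fields in different sheets of a block, given the
boundary of a larger square, is the evolution of the square of the field.
-/

open MeasureTheory Pool.Agent.N991.MK Pool.Agent.N989.MK Filter
open Pool.Agent.N681.MK (evo evo_add evo_zero evo_congr_nrm evo_nrm cont_evo)
open scoped Topology
open Pool.Agent.N109.T3

namespace Pool.Agent.N681.T3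

set_option linter.unusedSectionVars false

noncomputable section

/-! ### Pairs of plaquettes in different sheets -/

/-- the blocks of two plaquettes in different sheets -/
lemma split_sep : ∀ {j : ℕ} (p q : Pq j), Sep p q → ∀ {P : ∀ j, Pq j → Pq j → Prop},
    (∀ (a d : ℕ) (α : Pq d) (s s' r r' : Fin 4) (p₀ q₀ : Pq a), s ≠ s' →
      P (a + 1 + d) (jn α ((s, r, p₀) : Fin 4 × Fin 4 × Pq a))
        (jn α ((s', r', q₀) : Fin 4 × Fin 4 × Pq a))) → P j p q
  | 0, _, _, h, _, _ => False.elim h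
  | j + 1, (s, r, p), (s', r', q), h, P, H => by
    change s ≠ s' ∨ (r = r' ∧ Sep p q) at h
    by_cases hs : s = s'
    · rcases h with h | ⟨h1, h2⟩
      · exact absurd hs h
      · subst hs h1
        exact split_sep p q h2 (P := fun j p q => P (j + 1) ((s, r, p) : Fin 4 × Fin 4 × Pq j)
          ((s, r, q) : Fin 4 × Fin 4 × Pq j)) fun a d α s₁ s₂ r₁ r₂ p₀ q₀ h3 =>
            H a (d + 1) ((s, r, α) : Fin 4 × Fin 4 × Pq d) s₁ s₂ r₁ r₂ p₀ q₀ h3
    · exact H j 0 () s s' r r' p q hs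

lemma anc_block {a d : ℕ} (α : Pq d) {s s' r r' : Fin 4} (p₀ q₀ : Pq a) (hs : s ≠ s') :
    anc (a + 1 + d) (jn α ((s, r, p₀) : Fin 4 × Fin 4 × Pq a))
      (jn α ((s', r', q₀) : Fin 4 × Fin 4 × Pq a)) = a + 1 := by
  rw [anc_jn_same]
  change (if s = s' ∧ r = r' then anc a p₀ q₀ else a + 1) = a + 1
  rw [if_neg fun h => hs h.1]

variable {G : Type*} [Group G] [TopologicalSpace G] [IsTopologicalGroup G] [CompactSpace G]
  [MeasurableSpace G] [BorelSpace G] [SecondCountableTopology G]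
  {μ : Measure G} [IsProbabilityMeasure μ] [μ.IsHaarMeasure] [μ.IsMulRightInvariant]
  [μ.IsInvInvariant] {Z : G → ℝ}

/-! ### Two insertions in different sheets of a square -/

lemma ins1_ne {k : ℕ} {s₀ r₀ s r : Fin 4} (h : s ≠ s₀) (p₀ p : Pq k) (O : G → ℝ) (x : G) :
    ins1 (n := k + 1) (s₀, r₀, p₀) O (s, r, p) x = 1 :=
  if_neg fun h1 => h (congrArg (fun x : Fin 4 × Fin 4 × Pq k => x.1) h1)

/-- the sheets of a square with one insertion -/
lemma sheet_ins1 (hZ : Adm Z) {O : G → ℝ} (hO : Continuous O) (hc : Cls O) {k : ℕ}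
    (s₀ r₀ : Fin 4) (p₀ : Pq k) (x : G) :
    c4 μ (fun r => WF μ Z k (fun p => ins1 (n := k + 1) (s₀, r₀, p₀) O (s₀, r, p))) x =
      H4 μ (TTn μ Z k) x * PP μ Z O (k + 1) x := by
  have hA := hZ.TTn (μ := μ) k
  have h1 := congrFun (WF_ins1 (μ := μ) hZ hO hc (k + 1) (s₀, r₀, p₀)) x
  change ∏ s : Fin 4, c4 μ (fun r => WF μ Z k
      (fun p => ins1 (n := k + 1) (s₀, r₀, p₀) O (s, r, p))) x =
    (H4 μ (TTn μ Z k) x) ^ 4 * PP μ Z O (k + 1) x at h1
  have h2 : ∀ s : Fin 4, s ≠ s₀ → c4 μ (fun r => WF μ Z k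
      (fun p => ins1 (n := k + 1) (s₀, r₀, p₀) O (s, r, p))) x = H4 μ (TTn μ Z k) x := by
    intro s hs
    have h3 : (fun r => WF μ Z k (fun p => ins1 (n := k + 1) (s₀, r₀, p₀) O (s, r, p))) =
        fun _ => TTn μ Z k := by
      funext r
      exact WF_one k _ fun p y => ins1_ne hs p₀ p O y
    rw [h3]
    rfl
  rw [← Finset.mul_prod_erase Finset.univ _ (Finset.mem_univ s₀),
    Finset.prod_congr rfl (g := fun _ => H4 μ (TTn μ Z k) x) fun s hs =>
      h2 s (Finset.ne_of_mem_erase hs), Finset.prod_const,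
    Finset.card_erase_of_mem (Finset.mem_univ _), Finset.card_univ, Fintype.card_fin] at h1
  have h4 := (hA.H4 (μ := μ)).pos x
  have h5 : H4 μ (TTn μ Z k) x ^ 3 ≠ 0 := (pow_pos h4 3).ne'
  refine mul_right_cancel₀ h5 ?_
  rw [h1]
  ring

/-- **two insertions in different sheets** -/
lemma WF_two (hZ : Adm Z) {O O' : G → ℝ} (hO : Continuous O) (hc : Cls O) (hO' : Continuous O')
    (hc' : Cls O') {k : ℕ} {s s' : Fin 4} (r r' : Fin 4) (hs : s ≠ s') (p₀ q₀ : Pq k) :
    WF μ Z (k + 1) (fun q x => ins1 (n := k + 1) (s, r, p₀) O q x *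
      ins1 (n := k + 1) (s', r', q₀) O' q x) =
      fun x => TTn μ Z (k + 1) x * (PP μ Z O (k + 1) x * PP μ Z O' (k + 1) x) := by
  funext x
  change ∏ t : Fin 4, c4 μ (fun u => WF μ Z k (fun p =>
      fun x => ins1 (n := k + 1) (s, r, p₀) O (t, u, p) x *
        ins1 (n := k + 1) (s', r', q₀) O' (t, u, p) x)) x =
    (H4 μ (TTn μ Z k) x) ^ 4 * (PP μ Z O (k + 1) x * PP μ Z O' (k + 1) x)
  have e1 : c4 μ (fun u => WF μ Z k (fun p =>
      fun x => ins1 (n := k + 1) (s, r, p₀) O (s, u, p) x *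
        ins1 (n := k + 1) (s', r', q₀) O' (s, u, p) x)) x =
      H4 μ (TTn μ Z k) x * PP μ Z O (k + 1) x := by
    rw [← sheet_ins1 hZ hO hc s r p₀ x]
    simp only [ins1_ne hs, mul_one]
  have e2 : c4 μ (fun u => WF μ Z k (fun p =>
      fun x => ins1 (n := k + 1) (s, r, p₀) O (s', u, p) x *
        ins1 (n := k + 1) (s', r', q₀) O' (s', u, p) x)) x =
      H4 μ (TTn μ Z k) x * PP μ Z O' (k + 1) x := by
    rw [← sheet_ins1 hZ hO' hc' s' r' q₀ x]
    simp only [ins1_ne hs.symm, one_mul]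
  have e3 : ∀ t : Fin 4, t ≠ s → t ≠ s' → c4 μ (fun u => WF μ Z k (fun p =>
      fun x => ins1 (n := k + 1) (s, r, p₀) O (t, u, p) x *
        ins1 (n := k + 1) (s', r', q₀) O' (t, u, p) x)) x = H4 μ (TTn μ Z k) x := by
    intro t h1 h2
    have h3 : (fun u => WF μ Z k (fun p =>
      fun x => ins1 (n := k + 1) (s, r, p₀) O (t, u, p) x *
        ins1 (n := k + 1) (s', r', q₀) O' (t, u, p) x)) = fun _ => TTn μ Z k := by
      funext u
      refine WF_one k _ fun p y => ?_
      rw [ins1_ne h1, ins1_ne h2, one_mul]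
    rw [h3]
    rfl
  rw [← Finset.mul_prod_erase Finset.univ _ (Finset.mem_univ s),
    ← Finset.mul_prod_erase (Finset.univ.erase s) _
      (Finset.mem_erase.2 ⟨hs.symm, Finset.mem_univ s'⟩), e1, e2,
    Finset.prod_congr rfl (g := fun _ => H4 μ (TTn μ Z k) x) fun t ht =>
      e3 t (Finset.mem_erase.1 (Finset.mem_erase.1 ht).2).1 (Finset.mem_erase.1 ht).1,
    Finset.prod_const,
    Finset.card_erase_of_mem (Finset.mem_erase.2 ⟨hs.symm, Finset.mem_univ s'⟩),
    Finset.card_erase_of_mem (Finset.mem_univ _), Finset.card_univ, Fintype.card_fin]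
  ring

/-! ### The conditional expectation -/

/-- the conditional expectation of the product of two observables in different sheets of a block -/
theorem CE_two (hZ : Adm Z) {O O' : G → ℝ} (hO : Continuous O) (hc : Cls O) (hO' : Continuous O')
    (hc' : Cls O') {a d : ℕ} (α : Pq d) {s s' : Fin 4} (r r' : Fin 4) (hs : s ≠ s')
    (p₀ q₀ : Pq a) (V : BE (a + 1 + d) → G) :
    CE μ Z (a + 1 + d) V (fun U =>
        O (hol U (jn α ((s, r, p₀) : Fin 4 × Fin 4 × Pq a))) *
          O' (hol U (jn α ((s', r', q₀) : Fin 4 × Fin 4 × Pq a)))) =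
      PP μ (TTn μ Z (a + 1)) (fun x => PP μ Z O (a + 1) x * PP μ Z O' (a + 1) x) d (lp V) := by
  classical
  set P : Pq (a + 1 + d) := jn α ((s, r, p₀) : Fin 4 × Fin 4 × Pq a) with hP
  set Q : Pq (a + 1 + d) := jn α ((s', r', q₀) : Fin 4 × Fin 4 × Pq a) with hQ
  have hA := hZ.TTn (μ := μ) (a + 1)
  have h1 : Zbw μ (fun q x => Z x * (ins1 P O q x * ins1 Q O' q x)) V =
      ZZ μ (a + 1 + d) (fun q x => Z x * (ins1 P O q x * ins1 Q O' q x)) (lp V) := by
    refine Zbw_eq (a + 1 + d) (fun q => ?_) (fun q => ?_) V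
    · refine hZ.cont.mul (Continuous.mul ?_ ?_)
      · unfold ins1
        by_cases h : q = P
        · simpa [h] using hO
        · simpa [h] using continuous_const
      · unfold ins1
        by_cases h : q = Q
        · simpa [h] using hO'
        · simpa [h] using continuous_const
    · intro g x
      beta_reduce
      rw [hZ.cls]
      congr 1
      unfold ins1
      rw [hc g x, hc' g x]
  have h2 : ZZ μ (a + 1 + d) (fun q x => Z x * (ins1 P O q x * ins1 Q O' q x)) =
      fun x => TTn μ (TTn μ Z (a + 1)) d x *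
        PP μ (TTn μ Z (a + 1)) (fun x => PP μ Z O (a + 1) x * PP μ Z O' (a + 1) x) d x := by
    have hc2 : Cls (fun x => PP μ Z O (a + 1) x * PP μ Z O' (a + 1) x) := fun g x => by
      beta_reduce
      rw [PP_cls hZ hc (a + 1) g x, PP_cls hZ hc' (a + 1) g x]
    have hcc : Continuous (fun x => PP μ Z O (a + 1) x * PP μ Z O' (a + 1) x) :=
      (PP_cont hZ hO (a + 1)).mul (PP_cont hZ hO' (a + 1))
    rw [← WF_ins1 (μ := μ) hA hcc hc2 d α, ZZ_add (a + 1) d]
    unfold WF
    congr 1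
    funext β
    by_cases hβ : β = α
    · subst hβ
      have h3 := WF_two (μ := μ) hZ hO hc hO' hc' (k := a) r r' hs p₀ q₀
      unfold WF at h3
      have h4 : (fun (q : Pq (a + 1)) x => Z x * (ins1 P O (jn β q) x * ins1 Q O' (jn β q) x)) =
          fun q x => Z x * (ins1 (n := a + 1) (s, r, p₀) O q x *
            ins1 (n := a + 1) (s', r', q₀) O' q x) := by
        funext q x
        have e1 : ins1 P O (jn β q) x = ins1 (n := a + 1) (s, r, p₀) O q x := by
          unfold ins1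
          by_cases h5 : q = (s, r, p₀)
          · rw [if_pos h5, if_pos (by rw [hP, h5])]
          · rw [if_neg h5, if_neg fun h6 => h5 (jn_inj h6).2]
        have e2 : ins1 Q O' (jn β q) x = ins1 (n := a + 1) (s', r', q₀) O' q x := by
          unfold ins1
          by_cases h5 : q = (s', r', q₀)
          · rw [if_pos h5, if_pos (by rw [hQ, h5])]
          · rw [if_neg h5, if_neg fun h6 => h5 (jn_inj h6).2]
        rw [e1, e2]
      rw [h4, h3]
      funext x
      unfold ins1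
      rw [if_pos rfl]
    · have h4 : ∀ (q : Pq (a + 1)) x, ins1 P O (jn β q) x * ins1 Q O' (jn β q) x = 1 := by
        intro q x
        unfold ins1
        rw [if_neg fun h6 => hβ (jn_inj h6).1, if_neg fun h6 => hβ (jn_inj h6).1, one_mul]
      have h3 := WF_one (μ := μ) (Z := Z) (a + 1)
        (fun q x => ins1 P O (jn β q) x * ins1 Q O' (jn β q) x) h4
      unfold WF at h3
      rw [h3]
      funext x
      unfold ins1
      rw [if_neg hβ, mul_one]
  rw [h2] at h1
  unfold CE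
  rw [Zb_TTn hZ]
  have h3 : ∫ I : IE (a + 1 + d) → G, (O (hol (Sum.elim V I : Ed (a + 1 + d) → G) P) *
      O' (hol (Sum.elim V I : Ed (a + 1 + d) → G) Q)) *
      wt Z (Sum.elim V I : Ed (a + 1 + d) → G) ∂(Measure.pi fun _ => μ) =
      Zbw μ (fun q x => Z x * (ins1 P O q x * ins1 Q O' q x)) V := by
    unfold Zbw
    refine integral_congr_ae (Eventually.of_forall fun I => ?_)
    beta_reduce
    unfold wtt wt
    rw [Finset.prod_mul_distrib, Finset.prod_mul_distrib, prod_ins1, prod_ins1, mul_comm]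
  rw [h3, h1, ← TTn_add]
  have hp := ((hZ.TTn (μ := μ) (a + 1 + d)).pos (lp V)).ne'
  field_simp

/-! ### Composition of conditional expectations -/

lemma PP_smul (Z : G → ℝ) (c : ℝ) (O : G → ℝ) : ∀ k,
    PP μ Z (fun x => c * O x) k = fun x => c * PP μ Z O k x
  | 0 => rfl
  | k + 1 => by
    change KK μ (TTn μ Z k) (PP μ Z (fun x => c * O x) k) =
      fun x => c * KK μ (TTn μ Z k) (PP μ Z O k) x
    rw [PP_smul Z c O k]
    unfold KK
    have e : (fun y => TTn μ Z k y * (c * PP μ Z O k y)) =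
        fun y => c * (TTn μ Z k y * PP μ Z O k y) := by
      funext y
      ring
    rw [e, F3_smul]
    funext x
    rw [mul_div_assoc]

lemma PP_add (Z O : G → ℝ) (k : ℕ) : ∀ j,
    PP μ (TTn μ Z k) (PP μ Z O k) j = PP μ Z O (k + j)
  | 0 => rfl
  | j + 1 => by
    change KK μ (TTn μ (TTn μ Z k) j) (PP μ (TTn μ Z k) (PP μ Z O k) j) =
      KK μ (TTn μ Z (k + j)) (PP μ Z O (k + j))
    rw [PP_add Z O k j, TTn_add]

/-- the mean of a plaquette -/
lemma Ex_top (hZ : Adm Z) {O : G → ℝ} (hO : Continuous O) (hc : Cls O) {n : ℕ} (q : Pq n) :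
    Ex μ Z n (fun U => O (hol U q)) =
      (∫ x, TTn μ Z n x * PP μ Z O n x ∂μ) / ∫ x, TTn μ Z n x ∂μ := by
  classical
  have h1 := Ex_inss (μ := μ) hZ (fun _ : Fin 1 => q) (O := fun _ => O) (fun _ => hO) fun _ => hc
  simp only [Finset.univ_unique, Finset.prod_const, Finset.card_singleton, pow_one] at h1
  rw [h1]
  have h2 := WF_ins1 (μ := μ) hZ hO hc n q
  unfold WF at h2
  have h3 : (fun (q' : Pq n) x => Z x * inss (fun _ : Fin 1 => q) (fun _ => O) q' x) =
      fun q' x => Z x * ins1 q O q' x := by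
    funext q' x
    unfold inss ins1
    rw [Fin.prod_univ_one]
  rw [h3, h2]

variable {F φ : ℤ → G → ℝ}

/-- **piece P5** -/
theorem ope5 (ft : FT μ F φ) (k : ℤ) {a d d' : ℕ} (α : Pq d) (β : Pq d') {s s' : Fin 4}
    (r r' : Fin 4) (hs : s ≠ s') (p₀ q₀ : Pq a) {e e' : ℝ}
    (he : e = Ex μ (F k) (a + 1 + d + d')
      (fun U => φ k (hol U (jn β (jn α ((s, r, p₀) : Fin 4 × Fin 4 × Pq a))))))
    (he' : e' = Ex μ (F (k + (a + 1 : ℕ))) (d + d')
      (fun U => φ (k + (a + 1 : ℕ)) (hol U (jn β α)))) (V V' : BE (a + 1 + d) → G) :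
    16 ^ (2 * (a + 1) + d) *
      (CE μ (F k) (a + 1 + d) V (fun U =>
        (φ k (hol U (jn α ((s, r, p₀) : Fin 4 × Fin 4 × Pq a))) - e) *
          (φ k (hol U (jn α ((s', r', q₀) : Fin 4 × Fin 4 × Pq a))) - e)) -
        CE μ (F k) (a + 1 + d) V' (fun U =>
        (φ k (hol U (jn α ((s, r, p₀) : Fin 4 × Fin 4 × Pq a))) - e) *
          (φ k (hol U (jn α ((s', r', q₀) : Fin 4 × Fin 4 × Pq a))) - e))) =
      evo μ (F (k + (a + 1 : ℕ))) (fun x => (φ (k + (a + 1 : ℕ)) x - e') ^ 2) d (lp V) -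
        evo μ (F (k + (a + 1 : ℕ))) (fun x => (φ (k + (a + 1 : ℕ)) x - e') ^ 2) d (lp V') := by
  have hZ := ft.adm k
  have hA := hZ.TTn (μ := μ) (a + 1)
  have h16 : (0 : ℝ) < 16 ^ (a + 1) := by positivity
  -- the conditional expectation given the boundary of the block
  obtain ⟨c, hcdef⟩ : ∃ c, c = PP μ (F k) (φ k) (a + 1) 1 := ⟨_, rfl⟩
  have hφ : ∀ x, PP μ (F k) (φ k) (a + 1) x = (16 ^ (a + 1))⁻¹ * φ (k + (a + 1 : ℕ)) x + c := by
    intro x
    have h1 := congrFun (ft.iter k (a + 1)) x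
    rw [evo_eq hZ (ft.cont k) (ft.cls k) (a + 1)] at h1
    beta_reduce at h1
    rw [← h1, ← hcdef]
    field_simp
    ring
  -- the mean
  have hem : e = (16 ^ (a + 1))⁻¹ * e' + c := by
    have h1 : TTn μ (TTn μ (F k) (a + 1)) (d + d') = TTn μ (F k) (a + 1 + d + d') := by
      rw [← TTn_add, ← add_assoc (a + 1) d d']
    have h2 : PP μ (TTn μ (F k) (a + 1)) (PP μ (F k) (φ k) (a + 1)) (d + d') =
        PP μ (F k) (φ k) (a + 1 + d + d') := by
      rw [PP_add, ← add_assoc (a + 1) d d']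
    have h3 := Ex_top (μ := μ) hA (PP_cont (μ := μ) hZ (ft.cont k) (a + 1))
      (PP_cls (μ := μ) hZ (ft.cls k) (a + 1)) (jn β α)
    rw [h1, h2, ← Ex_top (μ := μ) hZ (ft.cont k) (ft.cls k)
      (jn (k := a + 1 + d) β (jn (k := a + 1) α ((s, r, p₀) : Fin 4 × Fin 4 × Pq a))), ← he] at h3
    rw [← h3]
    have h4 : Ex μ (TTn μ (F k) (a + 1)) (d + d')
        (fun U => PP μ (F k) (φ k) (a + 1) (hol U (jn β α))) =
        Ex μ (F (k + (a + 1 : ℕ))) (d + d')
          (fun U => (16 ^ (a + 1))⁻¹ * φ (k + (a + 1 : ℕ)) (hol U (jn β α)) + c) := by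
      have h5 : F (k + (a + 1 : ℕ)) = fun x => (∫ y, TTn μ (F k) (a + 1) y ∂μ)⁻¹ *
          TTn μ (F k) (a + 1) x := by
        rw [← ft.iterF k (a + 1)]
        rfl
      rw [h5, Ex_scale (inv_pos.2 hA.ipos).ne']
      congr 1
      funext U
      exact hφ _
    rw [h4, Ex_affine (ft.adm _) (cont_obs (ft.cont _) _), ← he']
  have hO : Continuous fun x => φ k x - e := (ft.cont k).sub continuous_const
  have hOc : Cls fun x => φ k x - e := fun g x => by
    beta_reduce
    rw [ft.cls k g x]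
  have hCE : ∀ V : BE (a + 1 + d) → G, CE μ (F k) (a + 1 + d) V (fun U =>
        (φ k (hol U (jn α ((s, r, p₀) : Fin 4 × Fin 4 × Pq a))) - e) *
          (φ k (hol U (jn α ((s', r', q₀) : Fin 4 × Fin 4 × Pq a))) - e)) =
      (16 ^ (2 * (a + 1)))⁻¹ * PP μ (TTn μ (F k) (a + 1))
        (fun x => (φ (k + (a + 1 : ℕ)) x - e') ^ 2) d (lp V) := by
    intro V
    rw [CE_two (μ := μ) hZ hO hOc hO hOc α r r' hs p₀ q₀ V]
    have h6 : (fun x => PP μ (F k) (fun x => φ k x - e) (a + 1) x *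
        PP μ (F k) (fun x => φ k x - e) (a + 1) x) =
        fun x => (16 ^ (2 * (a + 1)))⁻¹ * (φ (k + (a + 1 : ℕ)) x - e') ^ 2 := by
      funext x
      rw [PP_sub hZ (ft.cont k) e (a + 1)]
      beta_reduce
      rw [hφ x, hem, two_mul, pow_add]
      field_simp
      ring
    rw [h6, PP_smul]
  have hsq : Continuous fun x => (φ (k + (a + 1 : ℕ)) x - e') ^ 2 :=
    ((ft.cont _).sub continuous_const).pow 2
  have hsqc : Cls fun x => (φ (k + (a + 1 : ℕ)) x - e') ^ 2 := fun g x => by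
    beta_reduce
    rw [ft.cls _ g x]
  have hev : evo μ (F (k + (a + 1 : ℕ))) (fun x => (φ (k + (a + 1 : ℕ)) x - e') ^ 2) d =
      fun x => 16 ^ d * (PP μ (TTn μ (F k) (a + 1))
        (fun x => (φ (k + (a + 1 : ℕ)) x - e') ^ 2) d x - PP μ (TTn μ (F k) (a + 1))
        (fun x => (φ (k + (a + 1 : ℕ)) x - e') ^ 2) d 1) := by
    rw [← evo_eq hA hsq hsqc d]
    refine (evo_congr_nrm hA (ft.adm _) ?_ _ _).symm
    rw [ft.iterF, ft.nrmF]
  rw [hCE V, hCE V', hev]
  beta_reduce
  rw [pow_add]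
  field_simp
  ring

end

end Pool.Agent.N681.T3
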