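import Mathlib
import Pool.Agent.N681.T3.U4
import Pool.Agent.N565.T3U.Blk

/-!
# The operator product expansion, piece P4: the mean of the field
-/

open MeasureTheory Matrix Filter Pool.Agent.N991.MK Pool.Agent.N988.MK Pool.Agent.N989.MK
open scoped Matrix.Norms.Frobenius Topology
open Pool.Agent.H906R3.YM Pool.Agent.W793.YM Pool.Agent.TH618.YM Pool.Agent.N984.TW
open Pool.Agent.N109.T3
open Pool.Agent.N839.T3 (SD)

namespace Pool.Agent.N681.T3

set_option linter.unusedSectionVars false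

noncomputable section

lemma sj_eq : ∀ j, Pool.Agent.N985.T3.sj j = 4 / 5 * (1 - (1 / 16) ^ j)
  | 0 => by simp [Pool.Agent.N985.T3.sj]
  | j + 1 => by
    rw [Pool.Agent.N985.T3.sj, sj_eq j, pow_succ]
    ring

/-- the plaquette of the square of level zero -/
def a0 : Fin 1 → Pq 0 := fun _ => ()

variable {N n : ℕ} {G : Subgroup (UN N)}
variable [CompactSpace G] [MeasurableSpace G] [BorelSpace G] [SecondCountableTopology G]
  {μ : Measure G} [IsProbabilityMeasure μ] [μ.IsHaarMeasure] [μ.IsMulRightInvariant]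
  [μ.IsInvInvariant]

/-- **the mean of the field**, uniformly in the volume -/
theorem mean_unif {f φ : ℕ → G → ℝ} {h : ℕ → ℝ}
    (hUL : ∀ t : Finset (Fin 1), UL (fun m (i : Σ d, Pq d) => Ex μ (f m) (0 + i.1)
        (fun U => ∏ a ∈ t, (h m * φ m (hol U (jn i.2 (a0 a))))))
      (fun i => ER (n := n) (fun a => jn i.2 (a0 a)) fun a =>
        if a ∈ t then Pool.Agent.N109.T3.fr else fun _ => 1)) :
    ∀ ε : ℝ, 0 < ε → ∃ m0 : ℕ, ∀ (m d : ℕ) (β : Pq d), m0 ≤ m → m0 ≤ d →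
      |h m * Ex μ (f m) d (fun U => φ m (hol U β)) + 2 * n / 5| ≤ ε := by
  classical
  intro ε hε
  obtain ⟨m1, h1⟩ := (hUL {0}).2 (ε / 2) (by positivity)
  have h2 : Tendsto (fun d : ℕ => (n : ℝ) / 10 * (1 / 16 : ℝ) ^ d) atTop (𝓝 0) := by
    have := (tendsto_pow_atTop_nhds_zero_of_lt_one (r := (1 / 16 : ℝ)) (by norm_num)
      (by norm_num)).const_mul ((n : ℝ) / 10)
    rwa [mul_zero] at this
  obtain ⟨m2, h3⟩ := eventually_atTop.1 (h2.eventually (ge_mem_nhds (half_pos hε)))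
  refine ⟨max m1 m2, fun m d β hm hd => ?_⟩
  have h5 := h3 d ((le_max_right _ _).trans hd)
  obtain ⟨d', rfl⟩ : ∃ d', d = 0 + d' := ⟨d, by omega⟩
  obtain ⟨β', p, rfl⟩ := jn_surj β
  have h4 := h1 m ⟨d', β'⟩ ((le_max_left _ _).trans hm)
  dsimp only at h4
  simp only [Finset.prod_singleton] at h4
  have hp : p = a0 0 := rfl
  subst hp
  rw [Ex_prod_smul] at h4
  have h6 : ER (n := n) (fun a : Fin 1 => jn β' (a0 a))
      (fun a => if a ∈ ({0} : Finset (Fin 1)) then Pool.Agent.N109.T3.fr else fun _ => 1) =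
      -(2 * n / 5) - n / 10 * (1 / 16 : ℝ) ^ (0 + d') := by
    have e : (fun a : Fin 1 => if a ∈ ({0} : Finset (Fin 1)) then
        (Pool.Agent.N109.T3.fr : (Fin n → ℝ) → ℝ) else fun _ => 1) =
        fun _ x => Pool.Agent.N109.T3.fr x := by
      funext a
      have : a = 0 := Subsingleton.elim _ _
      subst this
      simp
    have e' : (fun a : Fin 1 => jn β' (a0 a)) = fun _ => jn β' (a0 0) := rfl
    rw [e, e', Pool.Agent.N985.T3.ER_one, sj_eq]
    ring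
  rw [h6] at h4
  obtain ⟨A, hA⟩ : ∃ A, A = h m * Ex μ (f m) (0 + d')
    (fun U => φ m (hol U (jn β' (a0 0)))) := ⟨_, rfl⟩
  obtain ⟨t, ht⟩ : ∃ t : ℝ, t = n / 10 * (1 / 16 : ℝ) ^ (0 + d') := ⟨_, rfl⟩
  have ht0 : 0 ≤ t := by rw [ht]; positivity
  rw [← hA, ← ht] at h4
  rw [← ht] at h5
  rw [← hA]
  have e1 : A + 2 * n / 5 = (A - (-(2 * n / 5) - t)) - t := by ring
  rw [e1]
  refine (abs_sub _ _).trans ?_
  rw [abs_of_nonneg ht0]
  linarith

variable {B : Frame G n} {hG : IsClosed (G : Set (UN N))} {h : ℕ → ℝ}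

/-- **piece P4** -/
theorem ope4 {f φ : ℕ → G → ℝ} (hf : ∀ m, Adm (f m)) (hφ : ∀ m, Continuous (φ m))
    (hφc : ∀ m, Cls (φ m)) (hS : SD B hG atTop h (fun m y => f m y / f m 1) gs)
    (hSφ : SD B hG atTop h (fun m y => h m * φ m y * (f m y / f m 1))
      (fun x => Pool.Agent.N109.T3.fr x * gs x)) {c₁ b r : ℝ} (hc₁ : 0 < c₁) (hb : 0 < b)
    (hr : 0 < r)
    (henv : ∀ s, ∀ᶠ m in atTop, ∀ d, (∀ x, Pool.Agent.N838.T3.env μ (f m) s d x ≤
        Pool.Agent.N838.T3.env μ (f m) s d 1) ∧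
      ∀ x : G, nN x ≤ r → c₁ * Pool.Agent.N838.T3.env μ (f m) s d 1 *
        Real.exp (-(b * (h m * nN x ^ 2))) ≤ Pool.Agent.N838.T3.env μ (f m) s d x) :
    ∀ ε : ℝ, 0 < ε → ∃ m0 : ℕ, ∀ (m d : ℕ) (β : Pq d), m0 ≤ m → m0 ≤ d →
      |h m * Ex μ (f m) d (fun U => φ m (hol U β)) + 2 * n / 5| ≤ ε := by
  classical
  refine mean_unif fun t => ?_
  have h1 := Pool.Agent.N565.T3U.field_UL (μ := μ) hf hφ hφc hS hSφ hc₁ hb hr henv
    (α := a0) (fun a b _ => Subsingleton.elim a b) t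
  exact h1

end

end Pool.Agent.N681.T3
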